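import Mathlib
import Pool.Agent.Lib.helper29.Paperfold

namespace Pool.Agent.Results.MP_4efd57_nt.ConstantWeight

open Finset Pool.Agent.Lib.H29.Paperfold

theorem result : ∃ f : ℕ → ℂ,
    (∀ n : ℕ, 1 ≤ n → ‖f n‖ = 1) ∧
    (∀ m n : ℕ, 1 ≤ m → 1 ≤ n → f (m * n) = f m * f n) ∧
    ∀ d n : ℕ, 1 ≤ d → 1 ≤ n → ‖∑ k ∈ Finset.Icc 1 n, f (k * d) * f (k * d + d)‖ ≤ 1 := by
  refine ⟨fun n => (pf n : ℂ), ?_, ?_, ?_⟩
  · intro n hn
    rcases pf_pm (n := n) (by omega) with h | h <;> simp [h]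
  · intro m n _ _
    simp [pf_mul]
  · intro d n hd _
    have key : ∑ k ∈ Finset.Icc 1 n, (pf (k * d) : ℂ) * (pf (k * d + d) : ℂ) =
        ((∑ k ∈ range n, pf (1 + k) * pf (1 + k + 1) : ℤ) : ℂ) := by
      rw [← Finset.Ico_add_one_right_eq_Icc, Finset.sum_Ico_eq_sum_range]
      push_cast
      refine sum_congr rfl (fun k _ => ?_)
      have h1 : (1 + k) * d + d = (1 + k + 1) * d := by ring
      have h2 : (pf d : ℂ) * (pf d : ℂ) = 1 := by exact_mod_cast pf_sq (n := d) (by omega)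
      rw [h1, pf_mul, pf_mul]
      push_cast
      linear_combination ((pf (1 + k) : ℂ) * (pf (1 + k + 1) : ℂ)) * h2
    simp only
    rw [key, Complex.norm_intCast]
    exact_mod_cast corr_one n

end Pool.Agent.Results.MP_4efd57_nt.ConstantWeight
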